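import Pool.Agent.Q120.NB.Stm

set_option autoImplicit false

/-! # NB-HOL: from two weighted mean squares to `L^p` -/

namespace Pool.Agent.Q120.NB

open Complex MeasureTheory Filter Topology Set

/-- the weight -/
noncomputable def hw (η y : ℝ) : ℝ := y ^ (2 * η) + y ^ (-(2 * η))

lemma hw_pos (η : ℝ) {y : ℝ} (hy : 0 < y) : 0 < hw η y := by
  unfold hw
  positivity

lemma hw_one_le {η : ℝ} (hη : 0 < η) {y : ℝ} (hy : 0 < y) : 1 ≤ hw η y := by
  unfold hw
  rcases le_total 1 y with h | h
  · have h1 : 1 ≤ y ^ (2 * η) := Real.one_le_rpow h (by linarith)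
    have h2 : 0 < y ^ (-(2 * η)) := by positivity
    linarith
  · have h1 : 1 ≤ y ^ (-(2 * η)) := Real.one_le_rpow_of_pos_of_le_one_of_nonpos hy h (by linarith)
    have h2 : 0 < y ^ (2 * η) := by positivity
    linarith

lemma hw_meas (η : ℝ) : Measurable (hw η) := by
  unfold hw
  fun_prop

lemma hol_int {η r : ℝ} (hη : 0 < η) (hr : 0 < r) :
    IntegrableOn (fun y : ℝ => y ^ (-1 : ℝ) * hw η y ^ (-r)) (Ioi 0) := by
  have hm : Measurable (fun y : ℝ => y ^ (-1 : ℝ) * hw η y ^ (-r)) :=
    (measurable_id.pow_const _).mul ((hw_meas η).pow_const _)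
  have hηr : 0 < 2 * η * r := by positivity
  have h1 : IntegrableOn (fun y : ℝ => y ^ (-1 : ℝ) * hw η y ^ (-r)) (Ioc 0 1) := by
    have h2 : IntegrableOn (fun y : ℝ => y ^ (-1 + 2 * η * r)) (Ioc 0 1) := by
      have := intervalIntegral.intervalIntegrable_rpow' (a := 0) (b := 1)
        (r := -1 + 2 * η * r) (by linarith)
      rwa [intervalIntegrable_iff_integrableOn_Ioc_of_le (by norm_num)] at this
    refine Integrable.mono' h2 hm.aestronglyMeasurable ?_
    rw [ae_restrict_iff' measurableSet_Ioc]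
    refine Eventually.of_forall fun y hy => ?_
    have hy0 := hy.1
    rw [Real.norm_of_nonneg (mul_nonneg (by positivity) (Real.rpow_nonneg (hw_pos η hy0).le _))]
    rw [Real.rpow_add hy0]
    apply mul_le_mul_of_nonneg_left _ (by positivity)
    have h3 : y ^ (-(2 * η)) ≤ hw η y := by
      unfold hw
      have : 0 < y ^ (2 * η) := by positivity
      linarith
    calc hw η y ^ (-r) ≤ (y ^ (-(2 * η))) ^ (-r) :=
          Real.rpow_le_rpow_of_nonpos (by positivity) h3 (by linarith)
      _ = y ^ (2 * η * r) := by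
          rw [← Real.rpow_mul hy0.le]
          congr 1
          ring
  have h2 : IntegrableOn (fun y : ℝ => y ^ (-1 : ℝ) * hw η y ^ (-r)) (Ioi 1) := by
    have h2 : IntegrableOn (fun y : ℝ => y ^ (-1 - 2 * η * r)) (Ioi 1) :=
      integrableOn_Ioi_rpow_of_lt (by linarith) one_pos
    refine Integrable.mono' h2 hm.aestronglyMeasurable ?_
    rw [ae_restrict_iff' measurableSet_Ioi]
    refine Eventually.of_forall fun y hy => ?_
    have hy1 : (1 : ℝ) < y := hy
    have hy0 : (0 : ℝ) < y := by linarith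
    rw [Real.norm_of_nonneg (mul_nonneg (by positivity) (Real.rpow_nonneg (hw_pos η hy0).le _))]
    rw [Real.rpow_sub hy0, div_eq_mul_inv, ← Real.rpow_neg hy0.le]
    apply mul_le_mul_of_nonneg_left _ (by positivity)
    have h3 : y ^ (2 * η) ≤ hw η y := by
      unfold hw
      have : 0 < y ^ (-(2 * η)) := by positivity
      linarith
    calc hw η y ^ (-r) ≤ (y ^ (2 * η)) ^ (-r) :=
          Real.rpow_le_rpow_of_nonpos (by positivity) h3 (by linarith)
      _ = y ^ (-(2 * η * r)) := by
          rw [← Real.rpow_mul hy0.le]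
          congr 1
          ring
  rw [← Ioc_union_Ioi_eq_Ioi (zero_le_one' ℝ)]
  exact h1.union h2

lemma hol_A (σ η b : ℝ) {y : ℝ} (hy : 0 < y) :
    b ^ 2 * y ^ (-(2 * (σ - η)) - 1) + b ^ 2 * y ^ (-(2 * (σ + η)) - 1) =
      b ^ 2 * y ^ (-(2 * σ) - 1) * hw η y := by
  unfold hw
  have e1 : y ^ (-(2 * (σ - η)) - 1) = y ^ (-(2 * σ) - 1) * y ^ (2 * η) := by
    rw [← Real.rpow_add hy]
    congr 1
    ring
  have e2 : y ^ (-(2 * (σ + η)) - 1) = y ^ (-(2 * σ) - 1) * y ^ (-(2 * η)) := by
    rw [← Real.rpow_add hy]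
    congr 1
    ring
  rw [e1, e2]
  ring

theorem t_HOL : J_HOL := by
  intro p σ η hp1 hp2 hη
  have hp0 : 0 < p := by linarith
  rcases eq_or_lt_of_le hp2 with rfl | hp
  · -- `p = 2`
    refine ⟨1, one_pos, ?_⟩
    intro u hu h1 h2
    have hS := h1.add h2
    have hle : ∀ y : ℝ, y ∈ Ioi (0 : ℝ) → ‖u y‖ ^ (2 : ℝ) * y ^ (-(2 * σ) - 1) ≤
        ‖u y‖ ^ 2 * y ^ (-(2 * (σ - η)) - 1) + ‖u y‖ ^ 2 * y ^ (-(2 * (σ + η)) - 1) := by
      intro y hy
      have hy0 : (0 : ℝ) < y := hy
      rw [hol_A σ η _ hy0, Real.rpow_two]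
      exact le_mul_of_one_le_right (by positivity) (hw_one_le hη hy0)
    have hI : IntegrableOn (fun y : ℝ => ‖u y‖ ^ (2 : ℝ) * y ^ (-(2 * σ) - 1)) (Ioi 0) := by
      refine Integrable.mono' hS ?_ ?_
      · apply Measurable.aestronglyMeasurable
        exact (hu.norm.pow_const _).mul (measurable_id.pow_const _)
      · rw [ae_restrict_iff' measurableSet_Ioi]
        refine Eventually.of_forall fun y hy => ?_
        have hy0 : (0 : ℝ) < y := hy
        rw [Real.norm_of_nonneg (by positivity)]
        exact hle y hy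
    refine ⟨hI, ?_⟩
    unfold ny
    rw [one_mul, Real.sqrt_eq_rpow]
    apply Real.rpow_le_rpow
    · apply setIntegral_nonneg measurableSet_Ioi
      intro y hy
      have hy0 : (0 : ℝ) < y := hy
      positivity
    · rw [← integral_add h1 h2]
      exact setIntegral_mono_on hI hS measurableSet_Ioi hle
    · norm_num
  · -- `p < 2`
    set P : ℝ := 2 / p with hP
    set Q : ℝ := 2 / (2 - p) with hQ
    have h2p : 0 < 2 - p := by linarith
    have hP0 : 0 < P := by positivity
    have hQ0 : 0 < Q := by positivity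
    have hPQ : P.HolderConjugate Q := by
      rw [Real.holderConjugate_iff]
      constructor
      · rw [hP, lt_div_iff₀ hp0]
        linarith
      · rw [hP, hQ]
        field_simp
        ring
    set g : ℝ → ℝ := fun y => y ^ (-1 + p / 2) * hw η y ^ (-(p / 2)) with hg
    have hgm : Measurable g := (measurable_id.pow_const _).mul ((hw_meas η).pow_const _)
    have hg0 : ∀ y : ℝ, 0 < y → 0 ≤ g y := fun y hy =>
      mul_nonneg (by positivity) (Real.rpow_nonneg (hw_pos η hy).le _)
    have hgQ : ∀ y : ℝ, 0 < y → g y ^ Q = y ^ (-1 : ℝ) * hw η y ^ (-(p / (2 - p))) := by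
      intro y hy
      rw [hg]
      simp only
      rw [Real.mul_rpow (by positivity) (Real.rpow_nonneg (hw_pos η hy).le _),
        ← Real.rpow_mul hy.le, ← Real.rpow_mul (hw_pos η hy).le]
      congr 2
      · rw [hQ]
        field_simp
        ring
      · rw [hQ]
        field_simp
    have hgI : IntegrableOn (fun y => g y ^ Q) (Ioi 0) := by
      refine (hol_int hη (r := p / (2 - p)) (by positivity)).congr_fun ?_ measurableSet_Ioi
      intro y hy
      exact (hgQ y hy).symm
    have hgL : MemLp g (ENNReal.ofReal Q) (volume.restrict (Ioi 0)) := by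
      rw [← integrable_norm_rpow_iff hgm.aestronglyMeasurable (by simpa using hQ0) (by simp),
        ENNReal.toReal_ofReal hQ0.le]
      refine hgI.congr_fun ?_ measurableSet_Ioi
      intro y hy
      simp only
      rw [Real.norm_of_nonneg (hg0 y hy)]
    refine ⟨((∫ y in Ioi (0 : ℝ), g y ^ Q) ^ (1 / Q)) ^ (1 / p) + 1, ?_, ?_⟩
    · have : 0 ≤ ∫ y in Ioi (0 : ℝ), g y ^ Q := by
        apply setIntegral_nonneg measurableSet_Ioi
        intro y hy
        exact Real.rpow_nonneg (hg0 y hy) _
      positivity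
    intro u hu h1 h2
    have hS := h1.add h2
    set A : ℝ → ℝ := fun y => ‖u y‖ ^ 2 * y ^ (-(2 * (σ - η)) - 1) +
      ‖u y‖ ^ 2 * y ^ (-(2 * (σ + η)) - 1) with hA
    have hAI : IntegrableOn A (Ioi 0) := hS
    have hAm : Measurable A :=
      ((hu.norm.pow_const _).mul (measurable_id.pow_const _)).add
        ((hu.norm.pow_const _).mul (measurable_id.pow_const _))
    have hA0 : ∀ y : ℝ, 0 < y → 0 ≤ A y := by
      intro y hy
      simp only [hA]
      positivity
    set f : ℝ → ℝ := fun y => A y ^ (p / 2) with hf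
    have hfm : Measurable f := hAm.pow_const _
    have hf0 : ∀ y : ℝ, 0 < y → 0 ≤ f y := fun y hy => Real.rpow_nonneg (hA0 y hy) _
    have hfP : ∀ y : ℝ, 0 < y → f y ^ P = A y := by
      intro y hy
      simp only [hf]
      rw [← Real.rpow_mul (hA0 y hy)]
      have : p / 2 * P = 1 := by
        rw [hP]
        field_simp
      rw [this, Real.rpow_one]
    have hfI : IntegrableOn (fun y => f y ^ P) (Ioi 0) := by
      refine hAI.congr_fun ?_ measurableSet_Ioi
      intro y hy
      exact (hfP y hy).symm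
    have hfL : MemLp f (ENNReal.ofReal P) (volume.restrict (Ioi 0)) := by
      rw [← integrable_norm_rpow_iff hfm.aestronglyMeasurable (by simpa using hP0) (by simp),
        ENNReal.toReal_ofReal hP0.le]
      refine hfI.congr_fun ?_ measurableSet_Ioi
      intro y hy
      simp only
      rw [Real.norm_of_nonneg (hf0 y hy)]
    have hfg : ∀ y : ℝ, 0 < y → f y * g y = ‖u y‖ ^ p * y ^ (-(p * σ) - 1) := by
      intro y hy
      have hw0 := hw_pos η hy
      simp only [hf, hg, hA]
      rw [hol_A σ η _ hy, Real.mul_rpow (by positivity) hw0.le, Real.mul_rpow (by positivity) (by positivity),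
        ← Real.rpow_natCast, ← Real.rpow_mul (norm_nonneg _), ← Real.rpow_mul hy.le]
      have e1 : ((2 : ℕ) : ℝ) * (p / 2) = p := by
        push_cast
        ring
      rw [e1]
      have e2 : hw η y ^ (p / 2) * hw η y ^ (-(p / 2)) = 1 := by
        rw [← Real.rpow_add hw0]
        simp
      have e3 : y ^ ((-(2 * σ) - 1) * (p / 2)) * y ^ (-1 + p / 2) = y ^ (-(p * σ) - 1) := by
        rw [← Real.rpow_add hy]
        congr 1
        ring
      calc ‖u y‖ ^ p * y ^ ((-(2 * σ) - 1) * (p / 2)) * hw η y ^ (p / 2) *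
            (y ^ (-1 + p / 2) * hw η y ^ (-(p / 2))) =
          ‖u y‖ ^ p * (y ^ ((-(2 * σ) - 1) * (p / 2)) * y ^ (-1 + p / 2)) *
            (hw η y ^ (p / 2) * hw η y ^ (-(p / 2))) := by ring
        _ = _ := by rw [e2, e3, mul_one]
    have hI : IntegrableOn (fun y : ℝ => ‖u y‖ ^ p * y ^ (-(p * σ) - 1)) (Ioi 0) := by
      have hsum : IntegrableOn (fun y => f y ^ P / P + g y ^ Q / Q) (Ioi 0) :=
        (hfI.div_const P).add (hgI.div_const Q)
      refine Integrable.mono' hsum ?_ ?_
      · apply Measurable.aestronglyMeasurable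
        exact (hu.norm.pow_const _).mul (measurable_id.pow_const _)
      · rw [ae_restrict_iff' measurableSet_Ioi]
        refine Eventually.of_forall fun y hy => ?_
        have hy0 : (0 : ℝ) < y := hy
        rw [Real.norm_of_nonneg (by positivity), ← hfg y hy0]
        exact Real.young_inequality_of_nonneg (hf0 y hy0) (hg0 y hy0) hPQ
    refine ⟨hI, ?_⟩
    have hH := integral_mul_le_Lp_mul_Lq_of_nonneg (μ := volume.restrict (Ioi (0 : ℝ))) hPQ
      (f := f) (g := g)
      (by
        rw [EventuallyLE, ae_restrict_iff' measurableSet_Ioi]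
        exact Eventually.of_forall fun y hy => hf0 y hy)
      (by
        rw [EventuallyLE, ae_restrict_iff' measurableSet_Ioi]
        exact Eventually.of_forall fun y hy => hg0 y hy) hfL hgL
    have hfg' : ∫ y in Ioi (0 : ℝ), f y * g y =
        ∫ y in Ioi (0 : ℝ), ‖u y‖ ^ p * y ^ (-(p * σ) - 1) :=
      setIntegral_congr_fun measurableSet_Ioi fun y hy => hfg y hy
    have hfP' : ∫ y in Ioi (0 : ℝ), f y ^ P = ∫ y in Ioi (0 : ℝ), A y :=
      setIntegral_congr_fun measurableSet_Ioi fun y hy => hfP y hy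
    rw [hfg', hfP'] at hH
    have hAint : ∫ y in Ioi (0 : ℝ), A y = (∫ y in Ioi (0 : ℝ), ‖u y‖ ^ 2 * y ^ (-(2 * (σ - η)) - 1)) +
        ∫ y in Ioi (0 : ℝ), ‖u y‖ ^ 2 * y ^ (-(2 * (σ + η)) - 1) := integral_add h1 h2
    rw [← hAint]
    set IA := ∫ y in Ioi (0 : ℝ), A y with hIA
    set IG := ∫ y in Ioi (0 : ℝ), g y ^ Q with hIG
    have hIA0 : 0 ≤ IA := by
      apply setIntegral_nonneg measurableSet_Ioi
      intro y hy
      exact hA0 y hy
    have hIG0 : 0 ≤ IG := by
      apply setIntegral_nonneg measurableSet_Ioi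
      intro y hy
      exact Real.rpow_nonneg (hg0 y hy) _
    unfold ny
    calc (∫ y in Ioi (0 : ℝ), ‖u y‖ ^ p * y ^ (-(p * σ) - 1)) ^ (1 / p) ≤
          (IA ^ (1 / P) * IG ^ (1 / Q)) ^ (1 / p) := by
          apply Real.rpow_le_rpow _ hH (by positivity)
          apply setIntegral_nonneg measurableSet_Ioi
          intro y hy
          have hy0 : (0 : ℝ) < y := hy
          positivity
      _ = (IG ^ (1 / Q)) ^ (1 / p) * Real.sqrt IA := by
          rw [Real.mul_rpow (by positivity) (by positivity), ← Real.rpow_mul hIA0, Real.sqrt_eq_rpow,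
            mul_comm]
          congr 2
          rw [hP]
          field_simp
      _ ≤ ((IG ^ (1 / Q)) ^ (1 / p) + 1) * Real.sqrt IA := by
          apply mul_le_mul_of_nonneg_right _ (Real.sqrt_nonneg _)
          linarith

end Pool.Agent.Q120.NB
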