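import Pool.Agent.Q120.NB.Stm

set_option autoImplicit false

/-! # NB-XY: the change of variables `y = 1/x` -/

namespace Pool.Agent.Q120.NB

open Complex MeasureTheory Filter Topology Set

theorem t_XY : J_XY := by
  intro p σ u hp
  have h := integral_comp_rpow_Ioi (fun y : ℝ => ‖u y‖ ^ p * y ^ (-(p * σ) - 1))
    (p := -1) (by norm_num)
  rw [← h]
  apply setIntegral_congr_fun measurableSet_Ioi
  intro x hx
  have hx0 : (0 : ℝ) < x := hx
  simp only [smul_eq_mul]
  rw [abs_neg, abs_one, one_mul, Real.rpow_neg_one, one_div]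
  rw [Real.inv_rpow hx0.le, ← Real.rpow_neg hx0.le]
  have e : x ^ (p * σ - 1) = x ^ ((-1 : ℝ) - 1) * x ^ (-(-(p * σ) - 1)) := by
    rw [← Real.rpow_add hx0]
    congr 1
    ring
  rw [e]
  ring

end Pool.Agent.Q120.NB
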